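import Pool.Agent.H893R5.HO.SphEmb
import Mathlib.Analysis.Quaternion

/-!
Equivariant immersions: a linear map preserving the Euclidean pairing and the cometric induces an
isometry.  The action of the unit quaternions on `S^2 × S^3`.
-/

open Bundle Manifold ContDiff ContinuousLinearMap Filter VectorField Metric
open scoped Topology RealInnerProductSpace Quaternion

set_option autoImplicit false
set_option synthInstance.maxHeartbeats 400000
set_option maxHeartbeats 4000000
set_option linter.unusedSectionVars false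

noncomputable section

namespace Pool.Agent.H381R3.FA

open Pool.Agent.H821R2 Pool.Agent.H821R3 Pool.Agent.H893R5.HO H907H

section general

variable {E : Type*} [NormedAddCommGroup E] [NormedSpace ℝ E] [FiniteDimensional ℝ E]
  {H : Type*} [TopologicalSpace H] {I : ModelWithCorners ℝ E H}
  {M : Type*} [TopologicalSpace M] [ChartedSpace H M] [IsManifold I ∞ M]
  {A : Type*} [NormedAddCommGroup A] [NormedSpace ℝ A] [FiniteDimensional ℝ A]

/-- the differential of an equivariant map -/
theorem d_equivariant (X : Emb I M A) {φ : M → M} {Φ : A →L[ℝ] A}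
    (hφ : MDifferentiable I I φ) (hj : ∀ p, X.j (φ p) = Φ (X.j p)) (p : M)
    (u : TangentSpace I p) :
    X.d (φ p) (mfderiv I I φ p u) = Φ (X.d p u) := by
  have h : MDifferentiableAt I 𝓘(ℝ, A) X.j (φ p) := X.hj.mdifferentiableAt (by simp)
  have h1 := mfderiv_comp p (g := X.j) (f := φ) (I := I) (I' := I) (I'' := 𝓘(ℝ, A)) h (hφ p)
  have h2 : X.d (φ p) (mfderiv I I φ p u) = mvfderiv I (fun q => X.j (φ q)) p u :=
    (congrArg (fun T : TangentSpace I p →L[ℝ] A => T u) h1).symm
  rw [h2]
  have h3 : (fun q => X.j (φ q)) = fun q => Φ (X.j q) := funext hj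
  rw [h3, X.d_comp p Φ.differentiableAt, ContinuousLinearMap.fderiv]

/-- Equivariance of the cometric makes `φ` an isometry. -/
theorem isometry_of_equivariant [Nontrivial E] [T2Space M] [SigmaCompactSpace M]
    (X : Emb I M A) {W : A → A →L[ℝ] A} (hW : X.Com W)
    {g : ContMDiffRiemannianMetric I ∞ E (fun x : M => TangentSpace I x)} (hg : X.Dual g W)
    {φ : M → M} {Φ : A →L[ℝ] A} (hφ : MDifferentiable I I φ)
    (hj : ∀ p, X.j (φ p) = Φ (X.j p)) (hB : ∀ a b, X.B (Φ a) (Φ b) = X.B a b)
    (hΦ : ∀ p a, W (Φ (X.j p)) (Φ a) = Φ (W (X.j p) a)) (p : M) (u v : TangentSpace I p) :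
    g.inner (φ p) (mfderiv I I φ p u) (mfderiv I I φ p v) = g.inner p u v := by
  obtain ⟨a, -, ha⟩ := Emb.exists_covec hW hg p u
  rw [hg p a u ha.symm, hg (φ p) (Φ a) (mfderiv I I φ p u)
    (by rw [d_equivariant X hφ hj, ← ha, hj, hΦ]), d_equivariant X hφ hj, hB]

end general

end Pool.Agent.H381R3.FA
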